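import Pool.Agent.Helper39.KZ.Stmts
import Pool.Agent.Helper71.CP.TH

/-!
# Crouzeix, module FIN: the finite dimensional inequality from the inequality for convex bodies
-/

set_option autoImplicit false

namespace Pool.Agent.Helper50.KZF

open Metric Set Polynomial KZ

theorem fin_of_bod.{u} (hBOD : ST_BOD.{u}) : ST_FIN.{u} := by
  intro E _ _ _ A q m hm hq
  rcases subsingleton_or_nontrivial E with hE | hE
  · have h0 : aeval A q = 0 := by
      ext x
      exact Subsingleton.elim _ _
    rw [h0, norm_zero]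
    positivity
  -- the numerical range
  set W : Set ℂ := {z : ℂ | ∃ x : E, ‖x‖ = 1 ∧ z = inner ℂ x (A x)} with hW
  have hWc : Convex ℝ W := Pool.Agent.Helper71.CP.st_TH E A
  have : ProperSpace E := FiniteDimensional.proper ℂ E
  have hWi : W = (fun x : E => inner ℂ x (A x)) '' Metric.sphere (0 : E) 1 := by
    ext z
    constructor
    · rintro ⟨x, hx, rfl⟩
      exact ⟨x, by simpa using hx, rfl⟩
    · rintro ⟨x, hx, rfl⟩
      exact ⟨x, by simpa using hx, rfl⟩
  have hWk : IsCompact W := by
    rw [hWi]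
    refine (isCompact_sphere (0 : E) 1).image ?_
    exact continuous_id.inner A.continuous
  obtain ⟨x₀, hx₀⟩ : ∃ x : E, ‖x‖ = 1 := by
    obtain ⟨v, hv⟩ := exists_ne (0 : E)
    refine ⟨((‖v‖⁻¹ : ℝ) : ℂ) • v, ?_⟩
    rw [norm_smul, Complex.norm_real, norm_inv, norm_norm, inv_mul_cancel₀ (norm_ne_zero_iff.2 hv)]
  set a : ℂ := inner ℂ x₀ (A x₀) with ha
  have haW : a ∈ W := ⟨x₀, hx₀, ha⟩
  -- the translated numerical range
  set V : Set ℂ := (fun z => z - a) '' W with hV
  have hVk : IsCompact V := hWk.image (by fun_prop)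
  have hVc : Convex ℝ V := by
    have := hWc.translate (-a)
    have h2 : (fun z => -a + z) '' W = V := by
      rw [hV]
      refine image_congr (fun z _ => ?_)
      ring
    rw [← h2]
    exact this
  have h0V : (0 : ℂ) ∈ V := ⟨a, haW, sub_self a⟩
  -- the translated operator and polynomial
  set B : E →L[ℂ] E := A - algebraMap ℂ (E →L[ℂ] E) a with hB
  set p : ℂ[X] := q.comp (X + C a) with hp
  have hBp : aeval B p = aeval A q := by
    rw [hp, aeval_comp]
    congr 1
    simp [hB]
  have hBV : ∀ x : E, ‖x‖ = 1 → inner ℂ x (B x) ∈ V := by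
    intro x hx
    refine ⟨inner ℂ x (A x), ⟨x, hx, rfl⟩, ?_⟩
    have h1 : B x = A x - a • x := by
      simp [hB, Algebra.algebraMap_eq_smul_one]
    have h2 : inner ℂ x x = (1 : ℂ) := by
      rw [inner_self_eq_norm_sq_to_K, hx]; simp
    rw [h1, inner_sub_right, inner_smul_right, h2, mul_one]
  have key : ∀ ε : ℝ, 0 < ε → ‖aeval A q‖ ≤ 2 * (m + ε) := by
    intro ε hε
    have hopen : IsOpen {z : ℂ | ‖p.eval z‖ < m + ε} :=
      isOpen_lt (p.continuous.norm) continuous_const
    have hsub : V ⊆ {z : ℂ | ‖p.eval z‖ < m + ε} := by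
      rintro z ⟨w, ⟨x, hx, rfl⟩, rfl⟩
      have h1 : p.eval (inner ℂ x (A x) - a) = q.eval (inner ℂ x (A x)) := by
        rw [hp, eval_comp]
        simp
      have h2 := hq x hx
      change ‖p.eval (inner ℂ x (A x) - a)‖ < m + ε
      rw [h1]
      linarith
    obtain ⟨r, hr, hrs⟩ := hVk.exists_cthickening_subset_open hopen hsub
    rw [← hBp]
    refine hBOD (cthickening r V) ⟨hVk.cthickening, hVc.cthickening r, ?_⟩ E B ?_ p (m + ε)
      (by positivity) ?_
    · exact interior_maximal (thickening_subset_cthickening r V) isOpen_thickening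
        (self_subset_thickening hr V h0V)
    · intro x hx
      exact self_subset_cthickening V (hBV x hx)
    · intro z hz
      exact (hrs hz).le
  have h1 : Filter.Tendsto (fun ε : ℝ => 2 * (m + ε)) (nhdsWithin 0 (Ioi 0)) (nhds (2 * (m + 0))) :=
    ((continuous_const.mul (continuous_const.add continuous_id)).tendsto 0).mono_left
      nhdsWithin_le_nhds
  rw [add_zero] at h1
  refine ge_of_tendsto h1 ?_
  filter_upwards [self_mem_nhdsWithin] with ε hε
  exact key ε hε

end Pool.Agent.Helper50.KZF
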