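import Pool.Agent.Helper39.KZ.Stmts

/-!
# Crouzeix, module COE: Taylor coefficients of the entries of `τ(s) (1 - g(s) A)⁻¹`
-/

set_option autoImplicit false

namespace Pool.Agent.Helper50.KZC

open Metric Set Polynomial KZ

lemma neumann {R : Type*} [Ring R] (a : R) (ha : IsUnit (1 - a)) (n : ℕ) :
    Ring.inverse (1 - a) = ∑ j ∈ Finset.range n, a ^ j + a ^ n * Ring.inverse (1 - a) := by
  have h1 := geom_sum_mul_neg a n
  have h2 : (∑ j ∈ Finset.range n, a ^ j) = (1 - a ^ n) * Ring.inverse (1 - a) := by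
    rw [← h1, mul_assoc, Ring.mul_inverse_cancel _ ha, mul_one]
  rw [h2]
  noncomm_ring

/-- circle averages of functions with a zero at the centre -/
lemma av_zero (r : ℝ) (hr0 : 0 < r) (hr1 : r < 1) (F : ℂ → ℂ)
    (hF : DifferentiableOn ℂ F (ball 0 1)) : av r (fun s => s * F s) = 0 := by
  have h1 : DiffContOnCl ℂ (fun s => s * F s) (ball 0 |r|) := by
    apply DifferentiableOn.diffContOnCl
    rw [closure_ball _ (abs_pos.2 hr0.ne').ne', abs_of_pos hr0]
    exact (differentiableOn_id.mul hF).mono (closedBall_subset_ball hr1)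
  have h2 := h1.circleAverage
  simpa using h2

theorem coe_of_tau.{u} (hTAU : ST_TAU) : ST_COE.{u} := by
  intro K g hK hg r hr0 hr1 E _ _ _ A hA x y
  have : CompleteSpace E := FiniteDimensional.complete ℂ E
  obtain ⟨htau, hds, htau0, -, hmul, -, -⟩ := hTAU K g hK hg
  have hgd := hg.diff
  have hinv : DifferentiableOn ℂ (fun s => Ring.inverse (1 - g s • A)) (ball 0 1) := by
    refine DifferentiableOn.inverse ?_ hA
    exact (differentiableOn_const _).sub (hgd.smul_const A)
  -- the function `⟪y, L ((1 - g A)⁻¹ x)⟫` is analytic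
  have hL : ∀ L : E →L[ℂ] E,
      DifferentiableOn ℂ (fun s => inner ℂ y (L (Ring.inverse (1 - g s • A) x))) (ball 0 1) := by
    intro L s hs
    have h1 : DifferentiableWithinAt ℂ (fun s => (Ring.inverse (1 - g s • A) : E →L[ℂ] E) x)
        (ball 0 1) s := (hinv s hs).clm_apply (differentiableWithinAt_const x)
    exact ((innerSL ℂ y).comp L).differentiableAt.comp_differentiableWithinAt s h1
  have hent : ∀ s, ent g A x y s = tau g s * inner ℂ y (Ring.inverse (1 - g s • A) x) := by
    intro s
    rw [ent, inner_smul_right]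
  refine ⟨?_, ?_, ?_⟩
  · have h1 := htau.mul (hL 1)
    refine h1.congr (fun s _ => ?_)
    rw [hent]
    rfl
  · rw [hent, htau0, hg.zero, zero_smul, sub_zero, Ring.inverse_one]
    simp
  · intro k
    have hsph : ∀ s ∈ sphere (0 : ℂ) r, s ∈ ball (0 : ℂ) 1 ∧ s ≠ 0 := by
      intro s hs
      rw [mem_sphere_zero_iff_norm] at hs
      refine ⟨by rw [mem_ball_zero_iff, hs]; exact hr1, fun h => ?_⟩
      rw [h, norm_zero] at hs
      exact hr0.ne hs
    -- the remainder
    have hrem : av r (fun s => s⁻¹ ^ k * (tau g s * g s ^ (k + 1) *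
        inner ℂ y ((A ^ (k + 1)) (Ring.inverse (1 - g s • A) x)))) = 0 := by
      have h1 := av_zero r hr0 hr1 (fun s => tau g s * dslope g 0 s ^ (k + 1) *
        inner ℂ y ((A ^ (k + 1)) (Ring.inverse (1 - g s • A) x)))
        ((htau.mul (hds.pow (k + 1))).mul (hL _))
      rw [← h1]
      apply Real.circleAverage_congr_sphere
      intro s hs
      rw [abs_of_pos hr0] at hs
      have hs0 := (hsph s hs).2
      have h2 : s⁻¹ ^ k * g s ^ (k + 1) = s * dslope g 0 s ^ (k + 1) := by
        rw [hmul s, mul_pow, inv_pow, pow_succ s k]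
        field_simp
      simp only []
      linear_combination (tau g s *
        inner ℂ y ((A ^ (k + 1)) (Ring.inverse (1 - g s • A) x))) * h2
    -- continuity of the terms
    have hc : ∀ F : ℂ → ℂ, DifferentiableOn ℂ F (ball 0 1) →
        CircleIntegrable (fun s => s⁻¹ ^ k * F s) 0 r := by
      intro F hF
      apply ContinuousOn.circleIntegrable hr0.le
      intro s hs
      have h1 : ContinuousWithinAt F (sphere 0 r) s :=
        (hF.continuousOn s (hsph s hs).1).mono (fun t ht => (hsph t ht).1)
      have h2 : ContinuousWithinAt (fun s : ℂ => s⁻¹ ^ k) (sphere 0 r) s :=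
        ((continuousAt_inv₀ (hsph s hs).2).pow k).continuousWithinAt
      exact h2.mul h1
    -- the expansion
    have hexp : ∀ s ∈ sphere (0 : ℂ) |r|, s⁻¹ ^ k * ent g A x y s =
        (∑ j ∈ Finset.range (k + 1), inner ℂ y ((A ^ j) x) * (s⁻¹ ^ k * (tau g s * g s ^ j))) +
          s⁻¹ ^ k * (tau g s * g s ^ (k + 1) *
            inner ℂ y ((A ^ (k + 1)) (Ring.inverse (1 - g s • A) x))) := by
      intro s hs
      rw [abs_of_pos hr0] at hs
      have h1 := neumann (g s • A) (hA s (hsph s hs).1) (k + 1)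
      have h2 : inner ℂ y (Ring.inverse (1 - g s • A) x) =
          (∑ j ∈ Finset.range (k + 1), g s ^ j * inner ℂ y ((A ^ j) x)) +
            g s ^ (k + 1) * inner ℂ y ((A ^ (k + 1)) (Ring.inverse (1 - g s • A) x)) := by
        conv_lhs => rw [h1]
        rw [add_apply, inner_add_right, sum_apply,
          inner_sum]
        congr 1
        · refine Finset.sum_congr rfl (fun j _ => ?_)
          rw [_root_.smul_pow, smul_apply, inner_smul_right]
        · rw [_root_.smul_pow, mul_apply_eq_comp, smul_apply,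
            inner_smul_right]
      rw [hent, h2, mul_add, mul_add, Finset.mul_sum, Finset.mul_sum]
      congr 1
      · refine Finset.sum_congr rfl (fun j _ => ?_)
        ring
      · ring
    have hpow : ∀ j, DifferentiableOn ℂ (fun s => tau g s * g s ^ j) (ball 0 1) :=
      fun j => htau.mul (hgd.pow j)
    unfold av at hrem ⊢
    rw [Real.circleAverage_congr_sphere hexp]
    have hI : ∀ j ∈ Finset.range (k + 1), CircleIntegrable (fun s =>
        inner ℂ y ((A ^ j) x) * (s⁻¹ ^ k * (tau g s * g s ^ j))) 0 r := by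
      intro j _
      have := (hc _ (hpow j)).const_fun_smul (a := inner ℂ y ((A ^ j) x))
      exact this
    have hcR : CircleIntegrable (fun s => s⁻¹ ^ k * (tau g s * g s ^ (k + 1) *
        inner ℂ y ((A ^ (k + 1)) (Ring.inverse (1 - g s • A) x)))) 0 r :=
      hc _ ((hpow (k + 1)).mul (hL (A ^ (k + 1))))
    rw [Real.circleAverage_fun_add (CircleIntegrable.fun_sum _ hI) hcR, hrem, add_zero, Real.circleAverage_fun_sum hI]
    rw [fab, map_sum, sum_apply, inner_sum]
    refine Finset.sum_congr rfl (fun j _ => ?_)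
    rw [map_mul, aeval_C, map_pow, aeval_X]
    have h3 : (algebraMap ℂ (E →L[ℂ] E) (av r (fun s => s⁻¹ ^ k * (tau g s * g s ^ j))) * A ^ j) x =
        (av r (fun s => s⁻¹ ^ k * (tau g s * g s ^ j))) • (A ^ j) x := by
      simp [Algebra.algebraMap_eq_smul_one]
    rw [h3, inner_smul_right]
    have h4 := Real.circleAverage_fun_smul (a := inner ℂ y ((A ^ j) x)) (c := (0 : ℂ)) (R := r)
      (f := fun s => s⁻¹ ^ k * (tau g s * g s ^ j))
    rw [mul_comm]
    exact h4

end Pool.Agent.Helper50.KZC
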